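import Mathlib

/-!
# MP_709dca_mp: mirrored pairs of optimal entanglement witnesses in every dimension `d ≥ 4`

For every `d ≥ 4` the space `ℂ^d ⊗ ℂ^d` carries two optimal entanglement witnesses `W`, `M` with
`W + M = 4 · 1`; both are non-decomposable.

Construction. Take Hermitian observables `S_k` with `∑_k ⟨S_k⟩² ≤ 2` for all unit vectors and
signs `c_k`. By Cauchy–Schwarz `W = 2 - ∑ c_k S_k ⊗ S_k` and `M = 2 + ∑ c_k S_k ⊗ S_k` are
nonnegative on product vectors, and `x ⊗ y` is a zero of `W` when `⟨S_k⟩_y = c_k ⟨S_k⟩_x` and `x`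
saturates the bound.

* `d ≥ 5`: `S_{ab} = i(E_ab - E_ba)` over ordered pairs (a, b) and `c_{ab} = ε_{ab}` a symmetric
  sign pattern such that every pair lies in a triple with `ε ε ε = -1` and in a triple with
  `ε ε ε = 1`: then the zeros of `W` and of `M` span.
* `d = 4`: the ten Pauli observables spanning `sp(4)`, with the pentagon sign pattern.
-/

set_option autoImplicit false

open Matrix ComplexOrder
open scoped Kronecker

namespace Pool.Agent.Results.MP_709dca_mp.AllDimensions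

/-- Operators on `ℂ^d ⊗ ℂ^d`, as matrices indexed by pairs. -/
abbrev Op (d : ℕ) := Matrix (Fin d × Fin d) (Fin d × Fin d) ℂ

/-- A state: positive semidefinite of trace one. -/
def IsState {n : Type} [Fintype n] (ρ : Matrix n n ℂ) : Prop := ρ.PosSemidef ∧ ρ.trace = 1

/-- A separable state: a finite convex combination of products of states. -/
def IsSeparable {d : ℕ} (σ : Op d) : Prop :=
  ∃ (k : ℕ) (p : Fin k → ℝ) (α β : Fin k → Matrix (Fin d) (Fin d) ℂ),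
    (∀ i, 0 ≤ p i) ∧ ∑ i, p i = 1 ∧ (∀ i, IsState (α i)) ∧ (∀ i, IsState (β i)) ∧
      σ = ∑ i, (p i : ℂ) • (α i ⊗ₖ β i)

/-- Entanglement witness. -/
def IsEW {d : ℕ} (W : Op d) : Prop :=
  W.IsHermitian ∧ (∀ σ : Op d, IsSeparable σ → 0 ≤ (W * σ).trace.re) ∧
    ∃ ρ : Op d, IsState ρ ∧ (W * ρ).trace.re < 0

/-- Optimal entanglement witness: no `W - ε P` with `ε > 0`, `P ≥ 0`, `P ≠ 0` is a witness. -/
def IsOptimalEW {d : ℕ} (W : Op d) : Prop :=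
  IsEW W ∧ ¬ ∃ (ε : ℝ) (P : Op d), 0 < ε ∧ P ≠ 0 ∧ P.PosSemidef ∧ IsEW (W - (ε : ℂ) • P)

/-- Partial transpose on the second tensor factor. -/
def partialTranspose {d : ℕ} (A : Op d) : Op d := fun p q => A (p.1, q.2) (q.1, p.2)

/-- Decomposable operators: `P + Q^Γ` with `P, Q ≥ 0`. -/
def IsDecomposable {d : ℕ} (W : Op d) : Prop :=
  ∃ P Q : Op d, P.PosSemidef ∧ Q.PosSemidef ∧ W = P + partialTranspose Q

/-- The product vector `x ⊗ y`. -/
def tens {d : ℕ} (x y : Fin d → ℂ) : Fin d × Fin d → ℂ := fun p => x p.1 * y p.2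

/-- Expectation `⟨z|A|z⟩`. -/
def ev {n : Type} [Fintype n] (A : Matrix n n ℂ) (z : n → ℂ) : ℂ := star z ⬝ᵥ A *ᵥ z

/-- Squared norm. -/
noncomputable def nsq {n : Type} [Fintype n] (z : n → ℂ) : ℝ := ∑ i, ‖z i‖ ^ 2

lemma trace_mul_vecMulVec {n : Type} [Fintype n] (W : Matrix n n ℂ) (z : n → ℂ) :
    (W * vecMulVec z (star z)).trace = ev W z := by
  rw [mul_vecMulVec, trace_vecMulVec, ev, dotProduct_comm]

lemma ev_im {n : Type} [Fintype n] {W : Matrix n n ℂ} (h : W.IsHermitian) (z : n → ℂ) :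
    (ev W z).im = 0 := h.im_star_dotProduct_mulVec_self z

lemma ev_eq_re {n : Type} [Fintype n] {W : Matrix n n ℂ} (h : W.IsHermitian) (z : n → ℂ) :
    ev W z = ((ev W z).re : ℂ) := by
  apply Complex.ext
  · simp
  · simp [ev_im h z]

lemma kron_vecMulVec {d : ℕ} (x y : Fin d → ℂ) :
    vecMulVec x (star x) ⊗ₖ vecMulVec y (star y) = vecMulVec (tens x y) (star (tens x y)) := by
  ext p q
  simp only [kroneckerMap_apply, vecMulVec_apply, tens, Pi.star_apply, star_mul']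
  ring

lemma kron_sum {d : ℕ} {ι κ : Type} (s : Finset ι) (t : Finset κ)
    (A : ι → Matrix (Fin d) (Fin d) ℂ) (B : κ → Matrix (Fin d) (Fin d) ℂ) :
    (∑ i ∈ s, A i) ⊗ₖ (∑ j ∈ t, B j) = ∑ i ∈ s, ∑ j ∈ t, A i ⊗ₖ B j := by
  ext p q
  simp only [kroneckerMap_apply, Matrix.sum_apply, Finset.sum_mul_sum]

lemma trace_product_nonneg {d : ℕ} {W : Op d} (hbp : ∀ x y : Fin d → ℂ, 0 ≤ (ev W (tens x y)).re)
    {α β : Matrix (Fin d) (Fin d) ℂ} (hα : α.PosSemidef) (hβ : β.PosSemidef) :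
    0 ≤ (W * (α ⊗ₖ β)).trace.re := by
  obtain ⟨m, v, rfl⟩ := Matrix.posSemidef_iff_eq_sum_vecMulVec.mp hα
  obtain ⟨n, w, rfl⟩ := Matrix.posSemidef_iff_eq_sum_vecMulVec.mp hβ
  rw [kron_sum, Finset.mul_sum, trace_sum, Complex.re_sum]
  refine Finset.sum_nonneg fun i _ => ?_
  rw [Finset.mul_sum, trace_sum, Complex.re_sum]
  refine Finset.sum_nonneg fun j _ => ?_
  rw [kron_vecMulVec, trace_mul_vecMulVec]
  exact hbp _ _

lemma separable_nonneg {d : ℕ} {W : Op d}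
    (hbp : ∀ x y : Fin d → ℂ, 0 ≤ (ev W (tens x y)).re) (σ : Op d) (hσ : IsSeparable σ) :
    0 ≤ (W * σ).trace.re := by
  obtain ⟨k, p, α, β, hp, -, hα, hβ, rfl⟩ := hσ
  rw [Finset.mul_sum, trace_sum, Complex.re_sum]
  refine Finset.sum_nonneg fun i _ => ?_
  rw [Matrix.mul_smul, trace_smul, smul_eq_mul, Complex.re_ofReal_mul]
  exact mul_nonneg (hp i) (trace_product_nonneg hbp (hα i).1 (hβ i).1)

lemma trace_vecMulVec_self {n : Type} [Fintype n] (z : n → ℂ) :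
    (vecMulVec z (star z)).trace = (nsq z : ℂ) := by
  rw [trace_vecMulVec, dotProduct, nsq]
  push_cast
  refine Finset.sum_congr rfl fun i _ => ?_
  rw [Pi.star_apply, Complex.star_def, Complex.mul_conj, Complex.normSq_eq_norm_sq]
  push_cast; rfl

lemma nsq_pos {n : Type} [Fintype n] {z : n → ℂ} (hz : z ≠ 0) : 0 < nsq z := by
  obtain ⟨i, hi⟩ := Function.ne_iff.mp hz
  refine Finset.sum_pos' (fun j _ => by positivity) ⟨i, Finset.mem_univ _, ?_⟩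
  have : 0 < ‖z i‖ := norm_pos_iff.mpr hi
  positivity

/-- the pure state along `z`. -/
noncomputable def pure {n : Type} [Fintype n] (z : n → ℂ) : Matrix n n ℂ :=
  ((nsq z)⁻¹ : ℂ) • vecMulVec z (star z)

lemma pure_state {n : Type} [Fintype n] {z : n → ℂ} (hz : z ≠ 0) : IsState (pure z) := by
  have h := nsq_pos hz
  refine ⟨?_, ?_⟩
  · refine (posSemidef_vecMulVec_self_star z).smul ?_
    rw [← Complex.ofReal_inv]
    exact_mod_cast (inv_nonneg.mpr h.le)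
  · rw [pure, trace_smul, trace_vecMulVec_self, smul_eq_mul]
    have : (nsq z : ℂ) ≠ 0 := by exact_mod_cast h.ne'
    field_simp

lemma trace_mul_pure {n : Type} [Fintype n] (W : Matrix n n ℂ) (z : n → ℂ) :
    (W * pure z).trace.re = (nsq z)⁻¹ * (ev W z).re := by
  rw [pure, Matrix.mul_smul, trace_smul, trace_mul_vecMulVec, smul_eq_mul, ← Complex.ofReal_inv,
    Complex.re_ofReal_mul]

lemma tens_eq_zero_left {d : ℕ} (y : Fin d → ℂ) : tens 0 y = 0 := by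
  ext p; simp [tens]

lemma tens_eq_zero_right {d : ℕ} (x : Fin d → ℂ) : tens x 0 = 0 := by
  ext p; simp [tens]

lemma ev_product_nonneg {d : ℕ} {W : Op d}
    (hW : ∀ σ : Op d, IsSeparable σ → 0 ≤ (W * σ).trace.re) (x y : Fin d → ℂ) :
    0 ≤ (ev W (tens x y)).re := by
  by_cases hx : x = 0
  · subst hx; simp [tens_eq_zero_left, ev]
  by_cases hy : y = 0
  · subst hy; simp [tens_eq_zero_right, ev]
  have hsep : IsSeparable (pure x ⊗ₖ pure y) := by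
    refine ⟨1, fun _ => 1, fun _ => pure x, fun _ => pure y, fun _ => zero_le_one, by simp,
      fun _ => pure_state hx, fun _ => pure_state hy, by simp⟩
  have h := hW _ hsep
  have e : W * (pure x ⊗ₖ pure y)
      = ((((nsq x)⁻¹ * (nsq y)⁻¹ : ℝ)) : ℂ) • (W * vecMulVec (tens x y) (star (tens x y))) := by
    rw [pure, pure, smul_kronecker, kronecker_smul, kron_vecMulVec, Matrix.mul_smul,
      Matrix.mul_smul, smul_smul]
    push_cast; rfl
  rw [e, trace_smul, trace_mul_vecMulVec, smul_eq_mul, Complex.re_ofReal_mul] at h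
  have hpos : 0 < (nsq x)⁻¹ * (nsq y)⁻¹ :=
    mul_pos (inv_pos.mpr (nsq_pos hx)) (inv_pos.mpr (nsq_pos hy))
  exact nonneg_of_mul_nonneg_right h hpos

/-- The zero product vectors of `W` span (in dual form). -/
def ZerosSpan {d : ℕ} (W : Op d) : Prop :=
  ∀ φ : Fin d × Fin d → ℂ,
    (∀ x y : Fin d → ℂ, ev W (tens x y) = 0 → ∑ q, φ q * tens x y q = 0) → φ = 0

lemma zero_of_kills {d : ℕ} {W P : Op d} (hs : ZerosSpan W)
    (h : ∀ x y : Fin d → ℂ, ev W (tens x y) = 0 → P *ᵥ tens x y = 0) : P = 0 := by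
  ext p q
  have : P p = 0 := hs (P p) fun x y hxy => by
    have := congrFun (h x y hxy) p
    simpa [mulVec, dotProduct] using this
  rw [this]; rfl

lemma not_posSemidef {d : ℕ} {W : Op d} (hs : ZerosSpan W) (hne : W ≠ 0) : ¬ W.PosSemidef :=
  fun hp => hne (zero_of_kills hs fun _ _ hxy => (hp.dotProduct_mulVec_zero_iff _).mp hxy)

lemma exists_neg {n : Type} [Fintype n] {W : Matrix n n ℂ} (hW : W.IsHermitian)
    (hn : ¬ W.PosSemidef) : ∃ z : n → ℂ, (ev W z).re < 0 := by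
  by_contra hcon
  push Not at hcon
  refine hn (PosSemidef.of_dotProduct_mulVec_nonneg hW fun z => ?_)
  have := ev_eq_re hW z
  rw [ev] at this
  rw [this]
  exact_mod_cast hcon z

lemma isEW_of {d : ℕ} {W : Op d} (hW : W.IsHermitian)
    (hbp : ∀ x y : Fin d → ℂ, 0 ≤ (ev W (tens x y)).re) (hs : ZerosSpan W) (hne : W ≠ 0) :
    IsEW W := by
  refine ⟨hW, separable_nonneg hbp, ?_⟩
  obtain ⟨z, hz⟩ := exists_neg hW (not_posSemidef hs hne)
  have hz0 : z ≠ 0 := by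
    rintro rfl
    simp [ev] at hz
  refine ⟨pure z, pure_state hz0, ?_⟩
  rw [trace_mul_pure]
  exact mul_neg_of_pos_of_neg (inv_pos.mpr (nsq_pos hz0)) hz

lemma ev_sub {n : Type} [Fintype n] (A B : Matrix n n ℂ) (z : n → ℂ) :
    ev (A - B) z = ev A z - ev B z := by
  simp [ev, sub_mulVec]

lemma ev_add {n : Type} [Fintype n] (A B : Matrix n n ℂ) (z : n → ℂ) :
    ev (A + B) z = ev A z + ev B z := by
  simp [ev, add_mulVec]

lemma ev_smul {n : Type} [Fintype n] (c : ℂ) (A : Matrix n n ℂ) (z : n → ℂ) :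
    ev (c • A) z = c * ev A z := by
  simp [ev, smul_mulVec]

/-- **Spanning property implies optimality.** -/
lemma optimal_of {d : ℕ} {W : Op d} (hW : W.IsHermitian)
    (hbp : ∀ x y : Fin d → ℂ, 0 ≤ (ev W (tens x y)).re) (hs : ZerosSpan W) (hne : W ≠ 0) :
    IsOptimalEW W := by
  refine ⟨isEW_of hW hbp hs hne, ?_⟩
  rintro ⟨ε, P, hε, hP0, hP, hE⟩
  refine hP0 (zero_of_kills hs fun x y hxy => (hP.dotProduct_mulVec_zero_iff _).mp ?_)
  have h1 := ev_product_nonneg hE.2.1 x y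
  rw [ev_sub, ev_smul, hxy, zero_sub, Complex.neg_re, Complex.re_ofReal_mul] at h1
  have h2 : 0 ≤ (ev P (tens x y)).re := by
    have := hP.dotProduct_mulVec_nonneg (tens x y)
    exact (Complex.le_def.mp this).1
  have h3 : (ev P (tens x y)).re = 0 := by nlinarith
  have h4 := ev_eq_re hP.isHermitian (tens x y)
  rw [h3] at h4
  simpa [ev] using h4

lemma ev_partialTranspose {d : ℕ} (Q : Op d) (x y : Fin d → ℂ) :
    ev (partialTranspose Q) (tens x y) = ev Q (tens x (star y)) := by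
  simp only [ev, dotProduct, mulVec, partialTranspose, tens, Pi.star_apply, star_mul',
    Fintype.sum_prod_type, Finset.mul_sum]
  refine Finset.sum_congr rfl fun a _ => ?_
  rw [Finset.sum_comm]
  conv_lhs => enter [2, c]; rw [Finset.sum_comm]
  rw [Finset.sum_comm]
  refine Finset.sum_congr rfl fun b _ => ?_
  refine Finset.sum_congr rfl fun c _ => ?_
  refine Finset.sum_congr rfl fun e _ => ?_
  rw [star_star]
  ring

lemma partialTranspose_partialTranspose {d : ℕ} (A : Op d) :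
    partialTranspose (partialTranspose A) = A := by
  ext p q; rfl

lemma not_decomposable_of {d : ℕ} {W : Op d} (hs : ZerosSpan W)
    (hn : ¬ (partialTranspose W).PosSemidef) : ¬ IsDecomposable W := by
  rintro ⟨P, Q, hP, hQ, rfl⟩
  have hP0 : P = 0 := by
    refine zero_of_kills hs fun x y hxy => (hP.dotProduct_mulVec_zero_iff _).mp ?_
    rw [ev_add, ev_partialTranspose] at hxy
    have h1 := hP.dotProduct_mulVec_nonneg (tens x y)
    have h2 := hQ.dotProduct_mulVec_nonneg (tens x (star y))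
    simp only [ev] at hxy
    exact ((add_eq_zero_iff_of_nonneg h1 h2).mp hxy).1
  apply hn
  rw [hP0, zero_add, partialTranspose_partialTranspose]
  exact hQ

/-! ### The Cauchy–Schwarz witnesses -/

/-- `W = u·1 - ∑ c_k S_k ⊗ S_k`. -/
noncomputable def csW {d : ℕ} {ι : Type} [Fintype ι] (u : ℝ) (c : ι → ℝ)
    (S : ι → Matrix (Fin d) (Fin d) ℂ) : Op d :=
  (u : ℂ) • 1 - ∑ k, (c k : ℂ) • (S k ⊗ₖ S k)

lemma ev_kron {d : ℕ} (A B : Matrix (Fin d) (Fin d) ℂ) (x y : Fin d → ℂ) :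
    ev (A ⊗ₖ B) (tens x y) = ev A x * ev B y := by
  simp only [ev, dotProduct, mulVec, tens, Pi.star_apply, star_mul', kroneckerMap_apply,
    Fintype.sum_prod_type]
  rw [Finset.sum_mul_sum]
  refine Finset.sum_congr rfl fun a _ => Finset.sum_congr rfl fun b _ => ?_
  have : (∑ c, ∑ e, A a c * B b e * (x c * y e)) = (∑ c, A a c * x c) * ∑ e, B b e * y e := by
    rw [Finset.sum_mul_sum]
    refine Finset.sum_congr rfl fun c _ => Finset.sum_congr rfl fun e _ => ?_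
    ring
  rw [this]
  ring

lemma ev_one {n : Type} [Fintype n] [DecidableEq n] (z : n → ℂ) :
    ev (1 : Matrix n n ℂ) z = (nsq z : ℂ) := by
  rw [ev, one_mulVec, dotProduct, nsq]
  push_cast
  refine Finset.sum_congr rfl fun i _ => ?_
  rw [Pi.star_apply, Complex.star_def, mul_comm, Complex.mul_conj, Complex.normSq_eq_norm_sq]
  push_cast; rfl

lemma nsq_tens {d : ℕ} (x y : Fin d → ℂ) : nsq (tens x y) = nsq x * nsq y := by
  simp only [nsq, tens, Fintype.sum_prod_type, norm_mul, mul_pow, Finset.sum_mul_sum]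

lemma ev_sum {n ι : Type} [Fintype n] (s : Finset ι) (A : ι → Matrix n n ℂ) (z : n → ℂ) :
    ev (∑ k ∈ s, A k) z = ∑ k ∈ s, ev (A k) z := by
  classical
  induction s using Finset.induction_on with
  | empty => simp [ev]
  | insert a s ha ih => rw [Finset.sum_insert ha, Finset.sum_insert ha, ev_add, ih]

section
variable {d : ℕ} {ι : Type} [Fintype ι] {u : ℝ} {c : ι → ℝ} {S : ι → Matrix (Fin d) (Fin d) ℂ}

lemma csW_hermitian (hS : ∀ k, (S k).IsHermitian) : (csW u c S).IsHermitian := by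
  have h1 : ∀ k, ((c k : ℂ) • (S k ⊗ₖ S k)).IsHermitian := fun k => by
    unfold Matrix.IsHermitian
    rw [conjTranspose_smul, conjTranspose_kronecker, (hS k).eq]
    simp
  unfold csW Matrix.IsHermitian
  rw [conjTranspose_sub, conjTranspose_smul, conjTranspose_one, conjTranspose_sum]
  simp only [(h1 _).eq]
  simp

lemma ev_csW (hS : ∀ k, (S k).IsHermitian) (x y : Fin d → ℂ) :
    ev (csW u c S) (tens x y)
      = ((u * (nsq x * nsq y) - ∑ k, c k * ((ev (S k) x).re * (ev (S k) y).re) : ℝ) : ℂ) := by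
  rw [csW, ev_sub, ev_smul, ev_one, nsq_tens, ev_sum]
  push_cast
  congr 1
  refine Finset.sum_congr rfl fun k _ => ?_
  rw [ev_smul, ev_kron, ← ev_eq_re (hS k), ← ev_eq_re (hS k)]

lemma csW_nonneg (hu : 0 ≤ u) (hS : ∀ k, (S k).IsHermitian) (hc : ∀ k, c k ^ 2 = 1)
    (hb : ∀ x : Fin d → ℂ, ∑ k, (ev (S k) x).re ^ 2 ≤ u * nsq x ^ 2) (x y : Fin d → ℂ) :
    0 ≤ (ev (csW u c S) (tens x y)).re := by
  rw [ev_csW hS, Complex.ofReal_re, sub_nonneg]
  have hnx : 0 ≤ nsq x := Finset.sum_nonneg fun i _ => by positivity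
  have hny : 0 ≤ nsq y := Finset.sum_nonneg fun i _ => by positivity
  have h1 := Finset.sum_mul_sq_le_sq_mul_sq Finset.univ (fun k => c k * (ev (S k) x).re)
    (fun k => (ev (S k) y).re)
  have h2 : ∑ k, (c k * (ev (S k) x).re) ^ 2 = ∑ k, (ev (S k) x).re ^ 2 :=
    Finset.sum_congr rfl fun k _ => by rw [mul_pow, hc k, one_mul]
  rw [h2] at h1
  have h3 : (∑ k, (ev (S k) x).re ^ 2) * (∑ k, (ev (S k) y).re ^ 2)
      ≤ (u * (nsq x * nsq y)) ^ 2 := by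
    calc _ ≤ (u * nsq x ^ 2) * (u * nsq y ^ 2) :=
          mul_le_mul (hb x) (hb y) (Finset.sum_nonneg fun k _ => sq_nonneg _) (by positivity)
      _ = _ := by ring
  have h4 : ∑ k, c k * ((ev (S k) x).re * (ev (S k) y).re)
      = ∑ k, c k * (ev (S k) x).re * (ev (S k) y).re :=
    Finset.sum_congr rfl fun k _ => by ring
  rw [h4]
  exact le_of_abs_le (abs_le_of_sq_le_sq (h1.trans h3) (by positivity))

/-- Zero product vectors: `s_k(y) = c_k s_k(x)`, with `x` saturating the bound. -/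
lemma csW_zero (hS : ∀ k, (S k).IsHermitian) (hc : ∀ k, c k ^ 2 = 1) {x y : Fin d → ℂ}
    (hx : ∑ k, (ev (S k) x).re ^ 2 = u * nsq x ^ 2) (hn : nsq y = nsq x)
    (hxy : ∀ k, (ev (S k) y).re = c k * (ev (S k) x).re) :
    ev (csW u c S) (tens x y) = 0 := by
  rw [ev_csW hS, hn]
  have : ∑ k, c k * ((ev (S k) x).re * (ev (S k) y).re) = ∑ k, (ev (S k) x).re ^ 2 :=
    Finset.sum_congr rfl fun k _ => by
      rw [hxy k]
      linear_combination (ev (S k) x).re ^ 2 * hc k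
  rw [this, hx]
  simp only [Complex.ofReal_eq_zero]
  ring

end

/-! ### The real antisymmetric family (`d ≥ 5`) -/

/-- The antisymmetric observable `A_{ab} = i(E_ab - E_ba)`. -/
noncomputable def obs {d : ℕ} (k : Fin d × Fin d) : Matrix (Fin d) (Fin d) ℂ :=
  Matrix.single k.1 k.2 Complex.I - Matrix.single k.2 k.1 Complex.I

lemma obs_hermitian {d : ℕ} (k : Fin d × Fin d) : (obs k).IsHermitian := by
  unfold obs Matrix.IsHermitian
  rw [conjTranspose_sub, conjTranspose_single, conjTranspose_single]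
  simp only [Complex.star_def, Complex.conj_I]
  ext a b
  simp only [Matrix.sub_apply, Matrix.single_apply]
  split_ifs <;> ring

lemma obs_transpose {d : ℕ} (k : Fin d × Fin d) : (obs k)ᵀ = - obs k := by
  unfold obs
  rw [transpose_sub, transpose_single, transpose_single]
  abel

lemma ev_single {d : ℕ} (a b : Fin d) (t : ℂ) (x : Fin d → ℂ) :
    ev (Matrix.single a b t) x = star (x a) * (t * x b) := by
  rw [ev, Matrix.single_mulVec]
  change star x ⬝ᵥ Pi.single a (t * x b) = _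
  rw [dotProduct_single, Pi.star_apply]

lemma ev_obs {d : ℕ} (k : Fin d × Fin d) (x : Fin d → ℂ) :
    (ev (obs k) x).re = 2 * ((x k.1).im * (x k.2).re - (x k.1).re * (x k.2).im) := by
  rw [obs, ev_sub, ev_single, ev_single]
  simp
  ring

lemma dotProduct_self_re {d : ℕ} (x : Fin d → ℂ) :
    (x ⬝ᵥ x).re = ∑ i, (x i).re ^ 2 - ∑ i, (x i).im ^ 2 := by
  rw [dotProduct, Complex.re_sum, ← Finset.sum_sub_distrib]
  refine Finset.sum_congr rfl fun i _ => ?_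
  rw [Complex.mul_re]; ring

lemma dotProduct_self_im {d : ℕ} (x : Fin d → ℂ) :
    (x ⬝ᵥ x).im = 2 * ∑ i, (x i).re * (x i).im := by
  rw [dotProduct, Complex.im_sum, Finset.mul_sum]
  refine Finset.sum_congr rfl fun i _ => ?_
  rw [Complex.mul_im]; ring

lemma nsq_eq {d : ℕ} (x : Fin d → ℂ) : nsq x = ∑ i, (x i).re ^ 2 + ∑ i, (x i).im ^ 2 := by
  rw [nsq, ← Finset.sum_add_distrib]
  refine Finset.sum_congr rfl fun i _ => ?_
  rw [← Complex.normSq_eq_norm_sq, Complex.normSq_apply]; ring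

lemma obs_sum {d : ℕ} (x : Fin d → ℂ) :
    ∑ k : Fin d × Fin d, (ev (obs k) x).re ^ 2
      = 8 * ((∑ i, (x i).re ^ 2) * (∑ i, (x i).im ^ 2)) - 8 * (∑ i, (x i).re * (x i).im) ^ 2 := by
  simp only [ev_obs, Fintype.sum_prod_type]
  have e : ∀ i j : Fin d, (2 * ((x i).im * (x j).re - (x i).re * (x j).im)) ^ 2
      = 4 * ((x i).im ^ 2 * (x j).re ^ 2) + 4 * ((x i).re ^ 2 * (x j).im ^ 2)
        - 8 * (((x i).re * (x i).im) * ((x j).re * (x j).im)) := fun i j => by ring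
  simp only [e, Finset.sum_add_distrib, Finset.sum_sub_distrib, ← Finset.mul_sum,
    ← Finset.sum_mul]
  ring

/-- `2·1 - ∑_{a,b} ε_{ab} A_{ab} ⊗ A_{ab}`. -/
noncomputable def soW {d : ℕ} (ε : Fin d → Fin d → ℝ) : Op d :=
  csW 2 (fun k : Fin d × Fin d => ε k.1 k.2) obs

/-- `y_a = s_a conj(x_a)`. -/
noncomputable def twist {d : ℕ} (s : Fin d → ℝ) (x : Fin d → ℂ) : Fin d → ℂ :=
  fun a => (s a : ℂ) * star (x a)

lemma twist_add {d : ℕ} (s : Fin d → ℝ) (x y : Fin d → ℂ) :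
    twist s (x + y) = twist s x + twist s y := by
  ext a; simp [twist, mul_add]

lemma twist_single {d : ℕ} (s : Fin d → ℝ) (a : Fin d) (t : ℂ) :
    twist s (Pi.single a t) = Pi.single a ((s a : ℂ) * star t) := by
  ext b
  by_cases h : b = a
  · subst h; simp [twist]
  · simp [twist, h]

lemma soW_nonneg {d : ℕ} {ε : Fin d → Fin d → ℝ} (hε : ∀ a b, ε a b ^ 2 = 1)
    (x y : Fin d → ℂ) : 0 ≤ (ev (soW ε) (tens x y)).re := by
  refine csW_nonneg (by norm_num) obs_hermitian (fun k => hε _ _) (fun x => ?_) x y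
  rw [obs_sum, nsq_eq]
  nlinarith [sq_nonneg (∑ i, (x i).re ^ 2 - ∑ i, (x i).im ^ 2),
    sq_nonneg (∑ i, (x i).re * (x i).im)]

lemma soW_zero {d : ℕ} {ε : Fin d → Fin d → ℝ} (hε : ∀ a b, ε a b ^ 2 = 1) {x : Fin d → ℂ}
    {s : Fin d → ℝ} (hs : ∀ a, s a ^ 2 = 1) (hx : x ⬝ᵥ x = 0)
    (h : ∀ a b, a ≠ b → x a ≠ 0 → x b ≠ 0 → ε a b = - (s a * s b)) :
    ev (soW ε) (tens x (twist s x)) = 0 := by
  refine csW_zero obs_hermitian (fun k => hε _ _) ?_ ?_ ?_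
  · have h1 := congrArg Complex.re hx
    have h2 := congrArg Complex.im hx
    rw [dotProduct_self_re, Complex.zero_re] at h1
    rw [dotProduct_self_im, Complex.zero_im] at h2
    have h3 : ∑ i, (x i).re * (x i).im = 0 := by linarith
    have h4 : ∑ i, (x i).re ^ 2 = ∑ i, (x i).im ^ 2 := by linarith
    rw [obs_sum, nsq_eq, h3, h4]
    ring
  · unfold nsq twist
    refine Finset.sum_congr rfl fun i _ => ?_
    rw [norm_mul, mul_pow, norm_star, Complex.norm_real, Real.norm_eq_abs, sq_abs, hs i, one_mul]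
  · rintro ⟨a, b⟩
    rw [ev_obs, ev_obs]
    have e : ∀ c, (twist s x c).re = s c * (x c).re ∧ (twist s x c).im = - (s c * (x c).im) := by
      intro c
      simp [twist]
    simp only [(e _).1, (e _).2]
    by_cases hab : a = b
    · subst hab; ring
    by_cases ha : x a = 0
    · simp [ha]
    by_cases hb : x b = 0
    · simp [hb]
    rw [h a b hab ha hb]
    ring

lemma sum_add_left {d : ℕ} (φ : Fin d × Fin d → ℂ) (x x' y : Fin d → ℂ) :
    ∑ q, φ q * tens (x + x') y q = ∑ q, φ q * tens x y q + ∑ q, φ q * tens x' y q := by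
  rw [← Finset.sum_add_distrib]
  refine Finset.sum_congr rfl fun q _ => ?_
  simp only [tens, Pi.add_apply]; ring

lemma sum_add_right {d : ℕ} (φ : Fin d × Fin d → ℂ) (x y y' : Fin d → ℂ) :
    ∑ q, φ q * tens x (y + y') q = ∑ q, φ q * tens x y q + ∑ q, φ q * tens x y' q := by
  rw [← Finset.sum_add_distrib]
  refine Finset.sum_congr rfl fun q _ => ?_
  simp only [tens, Pi.add_apply]; ring

lemma sum_single {d : ℕ} (φ : Fin d × Fin d → ℂ) (a b : Fin d) (s t : ℂ) :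
    ∑ q, φ q * tens (Pi.single a s) (Pi.single b t) q = φ (a, b) * (s * t) := by
  rw [Finset.sum_eq_single (a, b)]
  · simp [tens]
  · rintro ⟨c, e⟩ - hne
    by_cases hc : c = a
    · by_cases he : e = b
      · exact absurd (by rw [hc, he]) hne
      · simp [tens, he]
    · simp [tens, hc]
  · simp

lemma soW_span {d : ℕ} {ε : Fin d → Fin d → ℝ} (hε : ∀ a b, ε a b ^ 2 = 1)
    (hsymm : ∀ a b, ε a b = ε b a)
    (htri : ∀ i j, i ≠ j → ∃ k, k ≠ i ∧ k ≠ j ∧ ε i j * ε j k * ε i k = -1)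
    (hd : ∀ i : Fin d, ∃ j, j ≠ i) : ZerosSpan (soW ε) := by
  intro φ hφ
  -- two-term zeros
  have two : ∀ a b : Fin d, a ≠ b → ∀ σ : ℂ, σ ^ 2 = -1 →
      (-(ε a b : ℂ)) * φ (a, a) + star σ * φ (a, b) + (- (ε a b : ℂ)) * σ * φ (b, a)
        + σ * star σ * φ (b, b) = 0 := by
    intro a b hab σ hσ
    set s : Fin d → ℝ := fun q => if q = b then 1 else - ε q b with hs
    have hsa : s a = - ε a b := by simp [hs, hab]
    have hsb : s b = 1 := by simp [hs]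
    have hz : ev (soW ε) (tens (Pi.single a 1 + Pi.single b σ)
        (twist s (Pi.single a 1 + Pi.single b σ))) = 0 := by
      refine soW_zero hε ?_ ?_ ?_
      · intro q
        simp only [hs]
        split_ifs
        · norm_num
        · rw [neg_sq]; exact hε _ _
      · rw [add_dotProduct, dotProduct_add, dotProduct_add]
        simp only [single_dotProduct, Pi.single_eq_same, Pi.single_eq_of_ne hab,
          Pi.single_eq_of_ne hab.symm]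
        linear_combination hσ
      · intro p q hpq hp hq
        have hp' : p = a ∨ p = b := by
          by_contra hcon
          push Not at hcon
          exact hp (by simp [hcon.1, hcon.2])
        have hq' : q = a ∨ q = b := by
          by_contra hcon
          push Not at hcon
          exact hq (by simp [hcon.1, hcon.2])
        rcases hp' with rfl | rfl <;> rcases hq' with rfl | rfl
        · exact absurd rfl hpq
        · rw [hsa, hsb]; ring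
        · rw [hsa, hsb, hsymm]; ring
        · exact absurd rfl hpq
    have key := hφ _ _ hz
    rw [twist_add, twist_single, twist_single, sum_add_left, sum_add_right, sum_add_right,
      sum_single, sum_single, sum_single, sum_single, hsa, hsb] at key
    simp only [star_one, Complex.ofReal_neg, Complex.ofReal_one] at key
    linear_combination key
  have hI : Complex.I ^ 2 = -1 := Complex.I_sq
  have hnI : (-Complex.I) ^ 2 = -1 := by rw [neg_sq]; exact hI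
  have sI : star Complex.I = - Complex.I := by simp
  have snI : star (-Complex.I) = Complex.I := by simp
  have hεc : ∀ a b, (ε a b : ℂ) ^ 2 = 1 := fun a b => by exact_mod_cast hε a b
  have diag : ∀ a b : Fin d, a ≠ b → φ (b, b) = ε a b * φ (a, a) := by
    intro a b hab
    have h1 := two a b hab _ hI
    have h2 := two a b hab _ hnI
    rw [sI] at h1
    rw [snI] at h2
    linear_combination (1/2 : ℂ) * h1 + (1/2 : ℂ) * h2 + φ (b, b) * hI
  have off : ∀ a b : Fin d, a ≠ b → φ (a, b) = - ε a b * φ (b, a) := by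
    intro a b hab
    have h1 := two a b hab _ hI
    have h2 := two a b hab _ hnI
    rw [sI] at h1
    rw [snI] at h2
    linear_combination (Complex.I/2 : ℂ) * h1 - (Complex.I/2 : ℂ) * h2
      + (φ (a, b) + ε a b * φ (b, a)) * hI
  have diag0 : ∀ a : Fin d, φ (a, a) = 0 := by
    intro a
    obtain ⟨b, hb⟩ := hd a
    obtain ⟨k, hka, hkb, hk⟩ := htri a b hb.symm
    have h1 := diag a b hb.symm
    have h2 := diag b k hkb.symm
    have h3 := diag k a hka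
    have hk' : (ε a b : ℂ) * ε b k * ε a k = -1 := by exact_mod_cast hk
    rw [h2, h1, hsymm k a] at h3
    linear_combination (1/2 : ℂ) * h3 + (1/2 : ℂ) * φ (a, a) * hk'
  have off0 : ∀ i j : Fin d, i ≠ j → φ (i, j) = 0 := by
    intro i j hij
    obtain ⟨k, hki, hkj, hk⟩ := htri i j hij
    set s : Fin d → ℝ := fun q => if q = k then 1 else - ε q k with hs
    have hsi : s i = - ε i k := by simp [hs, hki.symm]
    have hsj : s j = - ε j k := by simp [hs, hkj.symm]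
    have hsk : s k = 1 := by simp [hs]
    have hijk : ε i j = - (s i * s j) := by
      rw [hsi, hsj]
      linear_combination ε j k * ε i k * hk - ε i j * ε i k ^ 2 * hε j k - ε i j * hε i k
    have hz : ev (soW ε) (tens (Pi.single i 3 + Pi.single j 4 + Pi.single k (5 * Complex.I))
        (twist s (Pi.single i 3 + Pi.single j 4 + Pi.single k (5 * Complex.I)))) = 0 := by
      refine soW_zero hε ?_ ?_ ?_
      · intro q
        simp only [hs]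
        split_ifs
        · norm_num
        · rw [neg_sq]; exact hε _ _
      · simp only [add_dotProduct, dotProduct_add, single_dotProduct, Pi.single_eq_same,
          Pi.single_eq_of_ne hij, Pi.single_eq_of_ne hij.symm, Pi.single_eq_of_ne hki,
          Pi.single_eq_of_ne hki.symm, Pi.single_eq_of_ne hkj, Pi.single_eq_of_ne hkj.symm]
        linear_combination 25 * hI
      · intro p q hpq hp hq
        have hp' : p = i ∨ p = j ∨ p = k := by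
          by_contra hcon
          push Not at hcon
          exact hp (by simp [hcon.1, hcon.2.1, hcon.2.2])
        have hq' : q = i ∨ q = j ∨ q = k := by
          by_contra hcon
          push Not at hcon
          exact hq (by simp [hcon.1, hcon.2.1, hcon.2.2])
        rcases hp' with rfl | rfl | rfl <;> rcases hq' with rfl | rfl | rfl
        · exact absurd rfl hpq
        · exact hijk
        · rw [hsi, hsk]; ring
        · rw [hsymm, hijk]; ring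
        · exact absurd rfl hpq
        · rw [hsj, hsk]; ring
        · rw [hsymm, hsi, hsk]; ring
        · rw [hsymm, hsj, hsk]; ring
        · exact absurd rfl hpq
    have key := hφ _ _ hz
    simp only [twist_add, twist_single, sum_add_left, sum_add_right, sum_single, hsi, hsj, hsk,
      diag0] at key
    have e1 := off i k hki.symm
    have e2 := off j k hkj.symm
    have e3 := off i j hij
    have c3 : star (3 : ℂ) = 3 := by simp
    have c4 : star (4 : ℂ) = 4 := by simp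
    have c5 : star (5 * Complex.I : ℂ) = - (5 * Complex.I) := by simp
    rw [c3, c4, c5] at key
    push_cast at key
    rw [e1, e2] at key
    have hk' : (ε i j : ℂ) * ε j k * ε i k = -1 := by exact_mod_cast hk
    have key2 : (ε j k : ℂ) * φ (i, j) + ε i k * φ (j, i) = 0 := by
      linear_combination (-1/12 : ℂ) * key
    have key3 : φ (i, j) = ε i j * φ (j, i) := by
      linear_combination (ε j k : ℂ) * key2 - φ (i, j) * hεc j k
        - ε i j * φ (j, i) * hk' + ε j k * ε i k * φ (j, i) * hεc i j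
    linear_combination (1/2 : ℂ) * key3 + (1/2 : ℂ) * e3
  funext q
  obtain ⟨a, b⟩ := q
  by_cases h : a = b
  · subst h; exact diag0 a
  · exact off0 a b h

/-! ### Sign patterns -/

/-- Adjacency of a path `0 - 1 - 2 - ⋯`, with the extra edge `0 - 4` when `d ≤ 6`. -/
def adj (d : ℕ) (a b : ℕ) : Bool :=
  (a + 1 == b) || (b + 1 == a) || (decide (d ≤ 6) && ((a == 0 && b == 4) || (a == 4 && b == 0)))

/-- The sign pattern `ε_{ab} = -1` on edges and `1` elsewhere. -/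
def sgn (d : ℕ) (a b : ℕ) : ℤ := if adj d a b then -1 else 1

lemma sgn_small (d : ℕ) (h5 : 5 ≤ d) (h6 : d ≤ 6) (τ : ℤ) (hτ : τ = 1 ∨ τ = -1) :
    ∀ i j : Fin d, i ≠ j → ∃ k : Fin d, k ≠ i ∧ k ≠ j ∧
      sgn d i j * sgn d j k * sgn d i k = τ := by
  interval_cases d <;> rcases hτ with rfl | rfl <;> decide

lemma adj_large {d : ℕ} (hd : 7 ≤ d) (a b : ℕ) : adj d a b = true ↔ a + 1 = b ∨ b + 1 = a := by
  simp only [adj]
  have : decide (d ≤ 6) = false := by simp; omega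
  rw [this]
  simp

lemma sgn_comm (d a b : ℕ) : sgn d a b = sgn d b a := by
  have : adj d a b = adj d b a := by
    unfold adj
    cases h1 : (a + 1 == b) <;> cases h2 : (b + 1 == a) <;> cases h3 : decide (d ≤ 6) <;>
      cases h4 : (a == 0) <;> cases h5 : (b == 4) <;> cases h6 : (a == 4) <;>
      cases h7 : (b == 0) <;> rfl
  rw [sgn, sgn, this]

lemma sgn_cases (d a b : ℕ) : sgn d a b = 1 ∨ sgn d a b = -1 := by
  unfold sgn; split_ifs <;> simp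

lemma typeA {d i j : ℕ} (hd : 7 ≤ d) (hij : i < j) (hj : j < d) :
    ∃ k, k < d ∧ k ≠ i ∧ k ≠ j ∧ ((i + 1 = k ∨ k + 1 = i) ↔ ¬ (j + 1 = k ∨ k + 1 = j)) := by
  by_cases h1 : i + 3 ≤ j
  · exact ⟨i + 1, by omega, by omega, by omega, by omega⟩
  by_cases h2 : 1 ≤ i
  · exact ⟨i - 1, by omega, by omega, by omega, by omega⟩
  exact ⟨j + 1, by omega, by omega, by omega, by omega⟩

lemma typeB {d i j : ℕ} (hd : 7 ≤ d) (hij : i < j) (hj : j < d) :
    ∃ k, k < d ∧ k ≠ i ∧ k ≠ j ∧ ((i + 1 = k ∨ k + 1 = i) ↔ (j + 1 = k ∨ k + 1 = j)) := by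
  by_cases h1 : j = i + 2
  · exact ⟨i + 1, by omega, by omega, by omega, by omega⟩
  by_cases h2 : 2 ≤ i
  · exact ⟨0, by omega, by omega, by omega, by omega⟩
  by_cases h3 : j = i + 1
  · exact ⟨4, by omega, by omega, by omega, by omega⟩
  by_cases h4 : i + 4 ≤ j
  · exact ⟨i + 2, by omega, by omega, by omega, by omega⟩
  exact ⟨j + 2, by omega, by omega, by omega, by omega⟩

lemma sgn_large {d : ℕ} (hd : 7 ≤ d) (τ : ℤ) (hτ : τ = 1 ∨ τ = -1) {i j : ℕ} (hij : i < j)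
    (hj : j < d) : ∃ k, k < d ∧ k ≠ i ∧ k ≠ j ∧ sgn d i j * sgn d j k * sgn d i k = τ := by
  have key : ∀ k, ((i + 1 = k ∨ k + 1 = i) ↔ ¬ (j + 1 = k ∨ k + 1 = j)) →
      sgn d j k * sgn d i k = -1 := by
    intro k hk
    have h1 := adj_large hd i k
    have h2 := adj_large hd j k
    unfold sgn
    by_cases h : (i + 1 = k ∨ k + 1 = i)
    · rw [if_pos (h1.mpr h), if_neg (fun h' => (hk.mp h) (h2.mp h'))]; norm_num
    · rw [if_neg (fun h' => h (h1.mp h'))]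
      have : (j + 1 = k ∨ k + 1 = j) := by
        by_contra hcon
        exact h (hk.mpr hcon)
      rw [if_pos (h2.mpr this)]; norm_num
  have key2 : ∀ k, ((i + 1 = k ∨ k + 1 = i) ↔ (j + 1 = k ∨ k + 1 = j)) →
      sgn d j k * sgn d i k = 1 := by
    intro k hk
    have h1 := adj_large hd i k
    have h2 := adj_large hd j k
    unfold sgn
    by_cases h : (i + 1 = k ∨ k + 1 = i)
    · rw [if_pos (h1.mpr h), if_pos (h2.mpr (hk.mp h))]; norm_num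
    · rw [if_neg (fun h' => h (h1.mp h')), if_neg (fun h' => h (hk.mpr (h2.mp h')))]; norm_num
  obtain ⟨k, hk, hki, hkj, hA⟩ := typeA hd hij hj
  obtain ⟨l, hl, hli, hlj, hB⟩ := typeB hd hij hj
  rcases sgn_cases d i j with h | h <;> rcases hτ with rfl | rfl
  · exact ⟨l, hl, hli, hlj, by rw [mul_assoc, key2 l hB, h]; norm_num⟩
  · exact ⟨k, hk, hki, hkj, by rw [mul_assoc, key k hA, h]; norm_num⟩
  · exact ⟨k, hk, hki, hkj, by rw [mul_assoc, key k hA, h]; norm_num⟩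
  · exact ⟨l, hl, hli, hlj, by rw [mul_assoc, key2 l hB, h]; norm_num⟩

lemma sgn_all {d : ℕ} (hd : 5 ≤ d) (τ : ℤ) (hτ : τ = 1 ∨ τ = -1) (i j : Fin d) (hij : i ≠ j) :
    ∃ k : Fin d, k ≠ i ∧ k ≠ j ∧ sgn d i j * sgn d j k * sgn d i k = τ := by
  by_cases h6 : d ≤ 6
  · exact sgn_small d hd h6 τ hτ i j hij
  have h7 : 7 ≤ d := by omega
  rcases lt_or_gt_of_ne (fun h => hij (Fin.ext h) : (i : ℕ) ≠ j) with h | h
  · obtain ⟨k, hk, hki, hkj, e⟩ := sgn_large h7 τ hτ h j.2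
    exact ⟨⟨k, hk⟩, fun h => hki (congrArg Fin.val h), fun h => hkj (congrArg Fin.val h), e⟩
  · obtain ⟨k, hk, hkj, hki, e⟩ := sgn_large h7 τ hτ h i.2
    refine ⟨⟨k, hk⟩, fun h => hki (congrArg Fin.val h), fun h => hkj (congrArg Fin.val h), ?_⟩
    rw [← e, sgn_comm d j i]
    ring

/-- Sign patterns scaled by `τ = ±1`. -/
noncomputable def pat (d : ℕ) (τ : ℝ) (a b : Fin d) : ℝ := τ * (sgn d a b : ℝ)

lemma pat_sq {d : ℕ} {τ : ℝ} (hτ : τ = 1 ∨ τ = -1) (a b : Fin d) : pat d τ a b ^ 2 = 1 := by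
  unfold pat
  rcases sgn_cases d a b with h | h <;> rcases hτ with rfl | rfl <;> rw [h] <;> norm_num

lemma pat_span {d : ℕ} (hd : 5 ≤ d) {τ : ℝ} (hτ : τ = 1 ∨ τ = -1) :
    ZerosSpan (soW (pat d τ)) := by
  refine soW_span (pat_sq hτ) (fun a b => by rw [pat, pat, sgn_comm]) ?_ ?_
  · intro i j hij
    rcases hτ with rfl | rfl
    · obtain ⟨k, hki, hkj, e⟩ := sgn_all hd (-1) (Or.inr rfl) i j hij
      refine ⟨k, hki, hkj, ?_⟩
      have e' : (sgn d i j : ℝ) * sgn d j k * sgn d i k = -1 := by exact_mod_cast e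
      simp only [pat]
      linear_combination e'
    · obtain ⟨k, hki, hkj, e⟩ := sgn_all hd 1 (Or.inl rfl) i j hij
      refine ⟨k, hki, hkj, ?_⟩
      have e' : (sgn d i j : ℝ) * sgn d j k * sgn d i k = 1 := by exact_mod_cast e
      simp only [pat]
      linear_combination -e'
  · intro i
    by_cases h : (i : ℕ) = 0
    · exact ⟨⟨1, by omega⟩, fun h' => by have := congrArg Fin.val h'; simp at this; omega⟩
    · exact ⟨⟨0, by omega⟩, fun h' => h (congrArg Fin.val h').symm⟩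

lemma soW_ne_zero {d : ℕ} (hd : 1 ≤ d) (ε : Fin d → Fin d → ℝ) : soW ε ≠ 0 := by
  intro h
  have h1 := congrFun (congrFun h (⟨0, by omega⟩, ⟨0, by omega⟩)) (⟨0, by omega⟩, ⟨0, by omega⟩)
  have h2 : ∀ k : Fin d × Fin d, obs k (⟨0, by omega⟩ : Fin d) ⟨0, by omega⟩ = 0 := by
    intro k
    simp only [obs, Matrix.sub_apply, Matrix.single_apply]
    by_cases e1 : k.1 = ⟨0, by omega⟩ <;> by_cases e2 : k.2 = ⟨0, by omega⟩ <;> simp [e1, e2]
  simp [soW, csW, Matrix.sum_apply, h2] at h1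

lemma soW_partialTranspose {d : ℕ} (ε : Fin d → Fin d → ℝ) :
    partialTranspose (soW ε) = soW (fun a b => - ε a b) := by
  ext p q
  have h : ∀ k : Fin d × Fin d, obs k q.2 p.2 = - obs k p.2 q.2 := fun k => by
    have := congrFun (congrFun (obs_transpose k) p.2) q.2
    simpa using this
  simp only [partialTranspose, soW, csW, Matrix.sub_apply, Matrix.smul_apply, Matrix.sum_apply,
    kroneckerMap_apply, h, smul_eq_mul, Matrix.one_apply]
  congr 1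
  · by_cases h1 : p.1 = q.1 <;> by_cases h2 : p.2 = q.2 <;>
      simp [Prod.ext_iff, h1, h2, eq_comm]
  · refine Finset.sum_congr rfl fun k _ => ?_
    push_cast
    ring

lemma soW_neg_pat {d : ℕ} (τ : ℝ) :
    soW (fun a b => - pat d τ a b) = soW (pat d (-τ)) := by
  congr 1
  funext a b
  simp [pat]

lemma soW_optimal {d : ℕ} (hd : 5 ≤ d) {τ : ℝ} (hτ : τ = 1 ∨ τ = -1) :
    IsOptimalEW (soW (pat d τ)) :=
  optimal_of (csW_hermitian obs_hermitian) (soW_nonneg (pat_sq hτ)) (pat_span hd hτ)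
    (soW_ne_zero (by omega) _)

lemma soW_nondecomposable {d : ℕ} (hd : 5 ≤ d) {τ : ℝ} (hτ : τ = 1 ∨ τ = -1) :
    ¬ IsDecomposable (soW (pat d τ)) := by
  refine not_decomposable_of (pat_span hd hτ) ?_
  rw [soW_partialTranspose, soW_neg_pat]
  refine not_posSemidef (pat_span hd ?_) (soW_ne_zero (by omega) _)
  rcases hτ with rfl | rfl <;> simp

lemma soW_mirror {d : ℕ} : soW (pat d 1) + soW (pat d (-1)) = ((4 : ℝ) : ℂ) • (1 : Op d) := by
  rw [← soW_neg_pat, soW, soW, csW, csW]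
  simp only [Complex.ofReal_neg, neg_smul, Finset.sum_neg_distrib]
  have : ((4 : ℝ) : ℂ) = ((2 : ℝ) : ℂ) + ((2 : ℝ) : ℂ) := by norm_num
  rw [this, add_smul]
  abel

/-! ### Dimension four -/

/-- The ten two-qubit Pauli observables spanning `sp(4)`:
`ZI, YI, XZ, XX, XI, YZ, YX, ZZ, ZX, IY`. -/
noncomputable def S4 : Fin 10 → Matrix (Fin 4) (Fin 4) ℂ :=
  ![!![1, 0, 0, 0; 0, 1, 0, 0; 0, 0, -1, 0; 0, 0, 0, -1],
    !![0, 0, -Complex.I, 0; 0, 0, 0, -Complex.I; Complex.I, 0, 0, 0; 0, Complex.I, 0, 0],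
    !![0, 0, 1, 0; 0, 0, 0, -1; 1, 0, 0, 0; 0, -1, 0, 0],
    !![0, 0, 0, 1; 0, 0, 1, 0; 0, 1, 0, 0; 1, 0, 0, 0],
    !![0, 0, 1, 0; 0, 0, 0, 1; 1, 0, 0, 0; 0, 1, 0, 0],
    !![0, 0, -Complex.I, 0; 0, 0, 0, Complex.I; Complex.I, 0, 0, 0; 0, -Complex.I, 0, 0],
    !![0, 0, 0, -Complex.I; 0, 0, -Complex.I, 0; 0, Complex.I, 0, 0; Complex.I, 0, 0, 0],
    !![1, 0, 0, 0; 0, -1, 0, 0; 0, 0, -1, 0; 0, 0, 0, 1],
    !![0, 1, 0, 0; 1, 0, 0, 0; 0, 0, 0, -1; 0, 0, -1, 0],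
    !![0, -Complex.I, 0, 0; Complex.I, 0, 0, 0; 0, 0, 0, -Complex.I; 0, 0, Complex.I, 0]]

/-- The pentagon sign pattern on the ten observables. -/
def c4 : Fin 10 → ℝ := ![-1, 1, 1, -1, -1, 1, 1, -1, 1, -1]

/-- The real quadratic forms `⟨x|S_k|x⟩`. -/
def sv (x : Fin 4 → ℂ) : Fin 10 → ℝ :=
  ![(x 0).re ^ 2 + (x 0).im ^ 2 + (x 1).re ^ 2 + (x 1).im ^ 2
      - (x 2).re ^ 2 - (x 2).im ^ 2 - (x 3).re ^ 2 - (x 3).im ^ 2,
    2 * ((x 0).re * (x 2).im - (x 0).im * (x 2).re + (x 1).re * (x 3).im - (x 1).im * (x 3).re),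
    2 * ((x 0).re * (x 2).re + (x 0).im * (x 2).im - (x 1).re * (x 3).re - (x 1).im * (x 3).im),
    2 * ((x 0).re * (x 3).re + (x 0).im * (x 3).im + (x 1).re * (x 2).re + (x 1).im * (x 2).im),
    2 * ((x 0).re * (x 2).re + (x 0).im * (x 2).im + (x 1).re * (x 3).re + (x 1).im * (x 3).im),
    2 * ((x 0).re * (x 2).im - (x 0).im * (x 2).re - (x 1).re * (x 3).im + (x 1).im * (x 3).re),
    2 * ((x 0).re * (x 3).im - (x 0).im * (x 3).re + (x 1).re * (x 2).im - (x 1).im * (x 2).re),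
    (x 0).re ^ 2 + (x 0).im ^ 2 - (x 1).re ^ 2 - (x 1).im ^ 2
      - (x 2).re ^ 2 - (x 2).im ^ 2 + (x 3).re ^ 2 + (x 3).im ^ 2,
    2 * ((x 0).re * (x 1).re + (x 0).im * (x 1).im - (x 2).re * (x 3).re - (x 2).im * (x 3).im),
    2 * ((x 0).re * (x 1).im - (x 0).im * (x 1).re + (x 2).re * (x 3).im - (x 2).im * (x 3).re)]

lemma S4_hermitian (k : Fin 10) : (S4 k).IsHermitian := by
  unfold Matrix.IsHermitian
  ext a b
  fin_cases k <;> fin_cases a <;> fin_cases b <;> simp [S4]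

lemma ev_S4 (k : Fin 10) (x : Fin 4 → ℂ) : (ev (S4 k) x).re = sv x k := by
  fin_cases k <;>
    simp [S4, sv, ev, dotProduct, mulVec, Fin.sum_univ_four, Complex.mul_re, Complex.mul_im] <;>
    ring

lemma nsq_four (x : Fin 4 → ℂ) : nsq x = (x 0).re ^ 2 + (x 0).im ^ 2 + (x 1).re ^ 2 + (x 1).im ^ 2
      + (x 2).re ^ 2 + (x 2).im ^ 2 + (x 3).re ^ 2 + (x 3).im ^ 2 := by
  rw [nsq_eq, Fin.sum_univ_four, Fin.sum_univ_four]; ring

lemma sv_sum (x : Fin 4 → ℂ) : ∑ k, (ev (S4 k) x).re ^ 2 = 2 * nsq x ^ 2 := by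
  simp only [ev_S4]
  rw [nsq_four]
  simp only [sv, Fin.sum_univ_succ, Matrix.cons_val_zero, Matrix.cons_val_succ, Fin.sum_univ_zero]
  ring

/-- The four dimensional pair. -/
noncomputable def dfourW (τ : ℝ) : Op 4 := csW 2 (fun k => τ * c4 k) S4

lemma c4_sq {τ : ℝ} (hτ : τ = 1 ∨ τ = -1) (k : Fin 10) : (τ * c4 k) ^ 2 = 1 := by
  rcases hτ with rfl | rfl <;> fin_cases k <;> simp [c4]

lemma dfour_nonneg {τ : ℝ} (hτ : τ = 1 ∨ τ = -1) (x y : Fin 4 → ℂ) :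
    0 ≤ (ev (dfourW τ) (tens x y)).re :=
  csW_nonneg (by norm_num) S4_hermitian (c4_sq hτ) (fun x => (sv_sum x).le) x y

lemma dfour_zero_of {τ : ℝ} (hτ : τ = 1 ∨ τ = -1) {x y : Fin 4 → ℂ} (hn : nsq y = nsq x)
    (h : ∀ k, sv y k = τ * c4 k * sv x k) : ev (dfourW τ) (tens x y) = 0 := by
  refine csW_zero S4_hermitian (c4_sq hτ) (sv_sum x) hn fun k => ?_
  rw [ev_S4, ev_S4]; exact h k

lemma dfour_spanP : ZerosSpan (dfourW 1) := by
  intro φ hφ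
  have hI : Complex.I ^ 2 = -1 := Complex.I_sq
  have e0 := hφ ![0, 0, 0, 1] ![0, 1, 0, 0] (dfour_zero_of (by norm_num) (by simp [nsq_four])
    (fun k => by fin_cases k <;> (simp [sv, c4] <;> norm_num)))
  have e1 := hφ ![0, 0, 1, 0] ![1, 0, 0, 0] (dfour_zero_of (by norm_num) (by simp [nsq_four])
    (fun k => by fin_cases k <;> (simp [sv, c4] <;> norm_num)))
  have e2 := hφ ![0, 1, 0, 0] ![0, 0, 0, 1] (dfour_zero_of (by norm_num) (by simp [nsq_four])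
    (fun k => by fin_cases k <;> (simp [sv, c4] <;> norm_num)))
  have e3 := hφ ![1, 0, 0, 0] ![0, 0, 1, 0] (dfour_zero_of (by norm_num) (by simp [nsq_four])
    (fun k => by fin_cases k <;> (simp [sv, c4] <;> norm_num)))
  have e4 := hφ ![0, 0, 1, 1] ![1, -1, 0, 0] (dfour_zero_of (by norm_num) (by simp [nsq_four])
    (fun k => by fin_cases k <;> (simp [sv, c4] <;> norm_num)))
  have e5 := hφ ![0, 1, 0, 1] ![1, 0, -1, 0] (dfour_zero_of (by norm_num) (by simp [nsq_four])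
    (fun k => by fin_cases k <;> (simp [sv, c4] <;> norm_num)))
  have e6 := hφ ![0, 1, 0, -1] ![1, 0, 1, 0] (dfour_zero_of (by norm_num) (by simp [nsq_four])
    (fun k => by fin_cases k <;> (simp [sv, c4] <;> norm_num)))
  have e7 := hφ ![0, 1, 0, Complex.I] ![0, 1, 0, Complex.I] (dfour_zero_of (by norm_num) (by simp [nsq_four])
    (fun k => by fin_cases k <;> (simp [sv, c4] <;> norm_num)))
  have e8 := hφ ![0, 1, 1, 0] ![1, 0, 0, -1] (dfour_zero_of (by norm_num) (by simp [nsq_four])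
    (fun k => by fin_cases k <;> (simp [sv, c4] <;> norm_num)))
  have e9 := hφ ![1, 0, 0, 1] ![0, 1, -1, 0] (dfour_zero_of (by norm_num) (by simp [nsq_four])
    (fun k => by fin_cases k <;> (simp [sv, c4] <;> norm_num)))
  have e10 := hφ ![1, 0, 1, 0] ![0, 1, 0, -1] (dfour_zero_of (by norm_num) (by simp [nsq_four])
    (fun k => by fin_cases k <;> (simp [sv, c4] <;> norm_num)))
  have e11 := hφ ![1, 0, Complex.I, 0] ![1, 0, Complex.I, 0] (dfour_zero_of (by norm_num) (by simp [nsq_four])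
    (fun k => by fin_cases k <;> (simp [sv, c4] <;> norm_num)))
  have e12 := hφ ![1, 1, 1, -1] ![1, 1, 1, -1] (dfour_zero_of (by norm_num) (by simp [nsq_four])
    (fun k => by fin_cases k <;> (simp [sv, c4] <;> norm_num)))
  have e13 := hφ ![1, 1, Complex.I, Complex.I] ![1, 1, Complex.I, Complex.I] (dfour_zero_of (by norm_num) (by simp [nsq_four])
    (fun k => by fin_cases k <;> (simp [sv, c4] <;> norm_num)))
  have e14 := hφ ![1, 1, Complex.I, -Complex.I] ![1, 1, Complex.I, -Complex.I] (dfour_zero_of (by norm_num) (by simp [nsq_four])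
    (fun k => by fin_cases k <;> (simp [sv, c4] <;> norm_num)))
  have e15 := hφ ![1, Complex.I, 1, -Complex.I] ![1, Complex.I, 1, -Complex.I] (dfour_zero_of (by norm_num) (by simp [nsq_four])
    (fun k => by fin_cases k <;> (simp [sv, c4] <;> norm_num)))
  simp only [Fintype.sum_prod_type, Fin.sum_univ_four, tens, Matrix.cons_val] at e0 e1 e2 e3 e4 e5 e6 e7 e8 e9 e10 e11 e12 e13 e14 e15
  have f00 : φ (0, 0) = 0 := by
    linear_combination ((-1/2 : ℂ) + (-1/2 : ℂ) * Complex.I) * e1 + ((-1/2 : ℂ) + (-1/2 : ℂ) * Complex.I) * e3 + ((-1/4 : ℂ) + (-1/4 : ℂ) * Complex.I) * e6 + ((-1/4 : ℂ) + (-1/4 : ℂ) * Complex.I) * e10 + (1/2 : ℂ) * e11 + (1/4 : ℂ) * e12 + (1/4 : ℂ) * e15 + (-1 : ℂ) * (1/4 : ℂ) * φ (1, 1) * hI + (-1 : ℂ) * (-1/4 : ℂ) * φ (1, 3) * hI + (-1 : ℂ) * (1/2 : ℂ) * φ (2, 2) * hI + (-1 : ℂ) * (-1/4 : ℂ) * φ (3, 1) * hI + (-1 : ℂ) * (1/4 : ℂ) * φ (3, 3) * hI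
  have f01 : φ (0, 1) = 0 := by
    linear_combination ((-3/4 : ℂ) + (1/4 : ℂ) * Complex.I) * e0 + ((-1/4 : ℂ) + (-1/4 : ℂ) * Complex.I) * e1 + ((1/4 : ℂ) + (3/4 : ℂ) * Complex.I) * e2 + ((3/4 : ℂ) + (1/4 : ℂ) * Complex.I) * e3 + (-1/4 : ℂ) * e5 + ((-1/4 : ℂ) + (-1/4 : ℂ) * Complex.I) * e6 + (-1/4 : ℂ) * e7 + ((1/4 : ℂ) + (1/4 : ℂ) * Complex.I) * e8 + ((3/4 : ℂ) + (1/4 : ℂ) * Complex.I) * e9 + (-1/4 : ℂ) * Complex.I * e10 + (-1/4 : ℂ) * e11 + (1/4 : ℂ) * e14 + (-1 : ℂ) * (-1/4 : ℂ) * φ (2, 3) * hI + (-1 : ℂ) * (-1/4 : ℂ) * φ (3, 2) * hI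
  have f02 : φ (0, 2) = 0 := by
    linear_combination (1 : ℂ) * e3
  have f03 : φ (0, 3) = 0 := by
    linear_combination ((-5/4 : ℂ) + (-1/4 : ℂ) * Complex.I) * e0 + ((-1/4 : ℂ) + (-1/4 : ℂ) * Complex.I) * e1 + ((3/4 : ℂ) + (1/4 : ℂ) * Complex.I) * e2 + ((3/4 : ℂ) + (1/4 : ℂ) * Complex.I) * e3 + (-1/2 : ℂ) * e4 + (-1/4 : ℂ) * e5 + (-1/2 : ℂ) * e6 + (1/4 : ℂ) * Complex.I * e7 + ((3/4 : ℂ) + (1/4 : ℂ) * Complex.I) * e8 + ((3/4 : ℂ) + (1/4 : ℂ) * Complex.I) * e9 + (-3/4 : ℂ) * e10 + (1/4 : ℂ) * Complex.I * e11 + (-1/4 : ℂ) * Complex.I * e13 + (-1 : ℂ) * (-1/4 : ℂ) * φ (0, 3) * hI + (-1 : ℂ) * (-1/4 : ℂ) * φ (1, 2) * hI + (-1 : ℂ) * (-1/4 : ℂ) * φ (2, 1) * hI + (-1 : ℂ) * (-1/4 : ℂ) * Complex.I * φ (2, 3) * hI + (-1 : ℂ) * (-1/4 : ℂ) * φ (3, 0) * hI + (-1 : ℂ) * (-1/4 : ℂ) * Complex.I * φ (3, 2) * hI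
  have f10 : φ (1, 0) = 0 := by
    linear_combination ((1/4 : ℂ) + (1/4 : ℂ) * Complex.I) * e0 + ((-1/4 : ℂ) + (-1/4 : ℂ) * Complex.I) * e1 + ((1/4 : ℂ) + (3/4 : ℂ) * Complex.I) * e2 + ((-1/4 : ℂ) + (1/4 : ℂ) * Complex.I) * e3 + (1/4 : ℂ) * e5 + ((1/4 : ℂ) + (-1/4 : ℂ) * Complex.I) * e6 + (-1/4 : ℂ) * e7 + ((1/4 : ℂ) + (1/4 : ℂ) * Complex.I) * e8 + ((-1/4 : ℂ) + (1/4 : ℂ) * Complex.I) * e9 + (-1/4 : ℂ) * Complex.I * e10 + (-1/4 : ℂ) * e11 + (1/4 : ℂ) * e14 + (-1 : ℂ) * (-1/4 : ℂ) * φ (2, 3) * hI + (-1 : ℂ) * (-1/4 : ℂ) * φ (3, 2) * hI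
  have f11 : φ (1, 1) = 0 := by
    linear_combination ((1/2 : ℂ) + (-1/2 : ℂ) * Complex.I) * e0 + ((1/2 : ℂ) + (-1/2 : ℂ) * Complex.I) * e2 + ((-1/4 : ℂ) + (1/4 : ℂ) * Complex.I) * e6 + (1/2 : ℂ) * e7 + ((-1/4 : ℂ) + (1/4 : ℂ) * Complex.I) * e10 + (1/4 : ℂ) * e12 + (-1/4 : ℂ) * e15 + (-1 : ℂ) * (-1/4 : ℂ) * φ (1, 1) * hI + (-1 : ℂ) * (1/4 : ℂ) * φ (1, 3) * hI + (-1 : ℂ) * (1/4 : ℂ) * φ (3, 1) * hI + (-1 : ℂ) * (1/4 : ℂ) * φ (3, 3) * hI
  have f12 : φ (1, 2) = 0 := by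
    linear_combination ((3/4 : ℂ) + (-1/4 : ℂ) * Complex.I) * e0 + ((-1/4 : ℂ) + (-1/4 : ℂ) * Complex.I) * e1 + ((-1/4 : ℂ) + (1/4 : ℂ) * Complex.I) * e2 + ((-1/4 : ℂ) + (1/4 : ℂ) * Complex.I) * e3 + (1/2 : ℂ) * e4 + (-1/4 : ℂ) * e5 + (1/2 : ℂ) * e6 + (1/4 : ℂ) * Complex.I * e7 + ((-1/4 : ℂ) + (1/4 : ℂ) * Complex.I) * e8 + ((-1/4 : ℂ) + (1/4 : ℂ) * Complex.I) * e9 + (1/4 : ℂ) * e10 + (1/4 : ℂ) * Complex.I * e11 + (-1/4 : ℂ) * Complex.I * e13 + (-1 : ℂ) * (-1/4 : ℂ) * φ (0, 3) * hI + (-1 : ℂ) * (-1/4 : ℂ) * φ (1, 2) * hI + (-1 : ℂ) * (-1/4 : ℂ) * φ (2, 1) * hI + (-1 : ℂ) * (-1/4 : ℂ) * Complex.I * φ (2, 3) * hI + (-1 : ℂ) * (-1/4 : ℂ) * φ (3, 0) * hI + (-1 : ℂ) * (-1/4 : ℂ) * Complex.I * φ (3, 2) * hI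
  have f13 : φ (1, 3) = 0 := by
    linear_combination (1 : ℂ) * e2
  have f20 : φ (2, 0) = 0 := by
    linear_combination (1 : ℂ) * e1
  have f21 : φ (2, 1) = 0 := by
    linear_combination ((-1/4 : ℂ) + (-1/4 : ℂ) * Complex.I) * e0 + ((3/4 : ℂ) + (-1/4 : ℂ) * Complex.I) * e1 + ((-1/4 : ℂ) + (1/4 : ℂ) * Complex.I) * e2 + ((-1/4 : ℂ) + (1/4 : ℂ) * Complex.I) * e3 + (-1/2 : ℂ) * e4 + (1/4 : ℂ) * e5 + (1/4 : ℂ) * Complex.I * e7 + ((-1/4 : ℂ) + (1/4 : ℂ) * Complex.I) * e8 + ((-1/4 : ℂ) + (1/4 : ℂ) * Complex.I) * e9 + (1/4 : ℂ) * e10 + (1/4 : ℂ) * Complex.I * e11 + (-1/4 : ℂ) * Complex.I * e13 + (-1 : ℂ) * (-1/4 : ℂ) * φ (0, 3) * hI + (-1 : ℂ) * (-1/4 : ℂ) * φ (1, 2) * hI + (-1 : ℂ) * (-1/4 : ℂ) * φ (2, 1) * hI + (-1 : ℂ) * (-1/4 : ℂ) * Complex.I * φ (2, 3) * hI + (-1 : ℂ) * (-1/4 : ℂ) * φ (3, 0) * hI + (-1 : ℂ) * (-1/4 : ℂ) * Complex.I * φ (3, 2) * hI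
  have f22 : φ (2, 2) = 0 := by
    linear_combination ((-1/2 : ℂ) + (1/2 : ℂ) * Complex.I) * e1 + ((-1/2 : ℂ) + (1/2 : ℂ) * Complex.I) * e3 + ((-1/4 : ℂ) + (-1/4 : ℂ) * Complex.I) * e6 + ((-1/4 : ℂ) + (-1/4 : ℂ) * Complex.I) * e10 + (-1/2 : ℂ) * e11 + (1/4 : ℂ) * e12 + (1/4 : ℂ) * e15 + (-1 : ℂ) * (1/4 : ℂ) * φ (1, 1) * hI + (-1 : ℂ) * (-1/4 : ℂ) * φ (1, 3) * hI + (-1 : ℂ) * (-1/2 : ℂ) * φ (2, 2) * hI + (-1 : ℂ) * (-1/4 : ℂ) * φ (3, 1) * hI + (-1 : ℂ) * (1/4 : ℂ) * φ (3, 3) * hI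
  have f23 : φ (2, 3) = 0 := by
    linear_combination ((1/4 : ℂ) + (1/4 : ℂ) * Complex.I) * e0 + ((3/4 : ℂ) + (-1/4 : ℂ) * Complex.I) * e1 + ((-3/4 : ℂ) + (3/4 : ℂ) * Complex.I) * e2 + ((-1/4 : ℂ) + (1/4 : ℂ) * Complex.I) * e3 + (1/4 : ℂ) * e5 + ((1/4 : ℂ) + (-1/4 : ℂ) * Complex.I) * e6 + (-1/4 : ℂ) * e7 + ((-3/4 : ℂ) + (1/4 : ℂ) * Complex.I) * e8 + ((-1/4 : ℂ) + (1/4 : ℂ) * Complex.I) * e9 + (-1/4 : ℂ) * Complex.I * e10 + (-1/4 : ℂ) * e11 + (1/4 : ℂ) * e14 + (-1 : ℂ) * (-1/4 : ℂ) * φ (2, 3) * hI + (-1 : ℂ) * (-1/4 : ℂ) * φ (3, 2) * hI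
  have f30 : φ (3, 0) = 0 := by
    linear_combination ((3/4 : ℂ) + (-1/4 : ℂ) * Complex.I) * e0 + ((-1/4 : ℂ) + (-1/4 : ℂ) * Complex.I) * e1 + ((-1/4 : ℂ) + (1/4 : ℂ) * Complex.I) * e2 + ((-1/4 : ℂ) + (1/4 : ℂ) * Complex.I) * e3 + (1/2 : ℂ) * e4 + (1/4 : ℂ) * e5 + (1/4 : ℂ) * Complex.I * e7 + ((-1/4 : ℂ) + (1/4 : ℂ) * Complex.I) * e8 + ((-1/4 : ℂ) + (1/4 : ℂ) * Complex.I) * e9 + (1/4 : ℂ) * e10 + (1/4 : ℂ) * Complex.I * e11 + (-1/4 : ℂ) * Complex.I * e13 + (-1 : ℂ) * (-1/4 : ℂ) * φ (0, 3) * hI + (-1 : ℂ) * (-1/4 : ℂ) * φ (1, 2) * hI + (-1 : ℂ) * (-1/4 : ℂ) * φ (2, 1) * hI + (-1 : ℂ) * (-1/4 : ℂ) * Complex.I * φ (2, 3) * hI + (-1 : ℂ) * (-1/4 : ℂ) * φ (3, 0) * hI + (-1 : ℂ) * (-1/4 : ℂ) * Complex.I * φ (3, 2) * hI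
  have f31 : φ (3, 1) = 0 := by
    linear_combination (1 : ℂ) * e0
  have f32 : φ (3, 2) = 0 := by
    linear_combination ((1/4 : ℂ) + (1/4 : ℂ) * Complex.I) * e0 + ((-1/4 : ℂ) + (-1/4 : ℂ) * Complex.I) * e1 + ((1/4 : ℂ) + (3/4 : ℂ) * Complex.I) * e2 + ((-1/4 : ℂ) + (1/4 : ℂ) * Complex.I) * e3 + (-1/4 : ℂ) * e5 + ((-1/4 : ℂ) + (-1/4 : ℂ) * Complex.I) * e6 + (-1/4 : ℂ) * e7 + ((1/4 : ℂ) + (1/4 : ℂ) * Complex.I) * e8 + ((-1/4 : ℂ) + (1/4 : ℂ) * Complex.I) * e9 + (-1/4 : ℂ) * Complex.I * e10 + (-1/4 : ℂ) * e11 + (1/4 : ℂ) * e14 + (-1 : ℂ) * (-1/4 : ℂ) * φ (2, 3) * hI + (-1 : ℂ) * (-1/4 : ℂ) * φ (3, 2) * hI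
  have f33 : φ (3, 3) = 0 := by
    linear_combination ((1/2 : ℂ) + (1/2 : ℂ) * Complex.I) * e0 + ((1/2 : ℂ) + (1/2 : ℂ) * Complex.I) * e2 + ((-1/4 : ℂ) + (1/4 : ℂ) * Complex.I) * e6 + (-1/2 : ℂ) * e7 + ((-1/4 : ℂ) + (1/4 : ℂ) * Complex.I) * e10 + (1/4 : ℂ) * e12 + (-1/4 : ℂ) * e15 + (-1 : ℂ) * (-1/4 : ℂ) * φ (1, 1) * hI + (-1 : ℂ) * (1/4 : ℂ) * φ (1, 3) * hI + (-1 : ℂ) * (1/4 : ℂ) * φ (3, 1) * hI + (-1 : ℂ) * (-3/4 : ℂ) * φ (3, 3) * hI
  funext q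
  obtain ⟨a, b⟩ := q
  fin_cases a <;> fin_cases b
  · exact f00
  · exact f01
  · exact f02
  · exact f03
  · exact f10
  · exact f11
  · exact f12
  · exact f13
  · exact f20
  · exact f21
  · exact f22
  · exact f23
  · exact f30
  · exact f31
  · exact f32
  · exact f33

lemma dfour_spanN : ZerosSpan (dfourW (-1)) := by
  intro φ hφ
  have hI : Complex.I ^ 2 = -1 := Complex.I_sq
  have e0 := hφ ![0, 0, 0, 1] ![0, 0, 0, 1] (dfour_zero_of (by norm_num) (by simp [nsq_four])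
    (fun k => by fin_cases k <;> (simp [sv, c4] <;> norm_num)))
  have e1 := hφ ![0, 0, 1, 0] ![0, 0, 1, 0] (dfour_zero_of (by norm_num) (by simp [nsq_four])
    (fun k => by fin_cases k <;> (simp [sv, c4] <;> norm_num)))
  have e2 := hφ ![0, 1, 0, 0] ![0, 1, 0, 0] (dfour_zero_of (by norm_num) (by simp [nsq_four])
    (fun k => by fin_cases k <;> (simp [sv, c4] <;> norm_num)))
  have e3 := hφ ![1, 0, 0, 0] ![1, 0, 0, 0] (dfour_zero_of (by norm_num) (by simp [nsq_four])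
    (fun k => by fin_cases k <;> (simp [sv, c4] <;> norm_num)))
  have e4 := hφ ![0, 0, 1, 1] ![0, 0, 1, -1] (dfour_zero_of (by norm_num) (by simp [nsq_four])
    (fun k => by fin_cases k <;> (simp [sv, c4] <;> norm_num)))
  have e5 := hφ ![0, 0, 1, Complex.I] ![0, 0, 1, Complex.I] (dfour_zero_of (by norm_num) (by simp [nsq_four])
    (fun k => by fin_cases k <;> (simp [sv, c4] <;> norm_num)))
  have e6 := hφ ![0, 1, 0, 1] ![1, 0, 1, 0] (dfour_zero_of (by norm_num) (by simp [nsq_four])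
    (fun k => by fin_cases k <;> (simp [sv, c4] <;> norm_num)))
  have e7 := hφ ![0, 1, 0, -1] ![1, 0, -1, 0] (dfour_zero_of (by norm_num) (by simp [nsq_four])
    (fun k => by fin_cases k <;> (simp [sv, c4] <;> norm_num)))
  have e8 := hφ ![0, 1, 0, Complex.I] ![0, 1, 0, -Complex.I] (dfour_zero_of (by norm_num) (by simp [nsq_four])
    (fun k => by fin_cases k <;> (simp [sv, c4] <;> norm_num)))
  have e9 := hφ ![0, 1, 1, 0] ![0, 1, 1, 0] (dfour_zero_of (by norm_num) (by simp [nsq_four])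
    (fun k => by fin_cases k <;> (simp [sv, c4] <;> norm_num)))
  have e10 := hφ ![0, 1, Complex.I, 0] ![0, 1, -Complex.I, 0] (dfour_zero_of (by norm_num) (by simp [nsq_four])
    (fun k => by fin_cases k <;> (simp [sv, c4] <;> norm_num)))
  have e11 := hφ ![1, 0, 0, 1] ![1, 0, 0, 1] (dfour_zero_of (by norm_num) (by simp [nsq_four])
    (fun k => by fin_cases k <;> (simp [sv, c4] <;> norm_num)))
  have e12 := hφ ![1, 0, 1, 0] ![0, 1, 0, 1] (dfour_zero_of (by norm_num) (by simp [nsq_four])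
    (fun k => by fin_cases k <;> (simp [sv, c4] <;> norm_num)))
  have e13 := hφ ![1, 0, Complex.I, 0] ![1, 0, -Complex.I, 0] (dfour_zero_of (by norm_num) (by simp [nsq_four])
    (fun k => by fin_cases k <;> (simp [sv, c4] <;> norm_num)))
  have e14 := hφ ![1, 1, 1, 1] ![1, 1, 1, 1] (dfour_zero_of (by norm_num) (by simp [nsq_four])
    (fun k => by fin_cases k <;> (simp [sv, c4] <;> norm_num)))
  have e15 := hφ ![1, Complex.I, 1, Complex.I] ![1, Complex.I, 1, Complex.I] (dfour_zero_of (by norm_num) (by simp [nsq_four])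
    (fun k => by fin_cases k <;> (simp [sv, c4] <;> norm_num)))
  simp only [Fintype.sum_prod_type, Fin.sum_univ_four, tens, Matrix.cons_val] at e0 e1 e2 e3 e4 e5 e6 e7 e8 e9 e10 e11 e12 e13 e14 e15
  have f00 : φ (0, 0) = 0 := by
    linear_combination (1 : ℂ) * e3
  have f01 : φ (0, 1) = 0 := by
    linear_combination ((3/2 : ℂ) + (1/2 : ℂ) * Complex.I) * e0 + ((1/2 : ℂ) + (-1/2 : ℂ) * Complex.I) * e1 + (1 : ℂ) * e2 + (1 : ℂ) * e3 + (1/2 : ℂ) * e4 + (1/2 : ℂ) * Complex.I * e5 + (1/2 : ℂ) * e6 + (-1/2 : ℂ) * e7 + (-1 : ℂ) * e9 + (-1 : ℂ) * e11 + (1 : ℂ) * e12 + (-1 : ℂ) * (1/2 : ℂ) * φ (2, 3) * hI + (-1 : ℂ) * (1/2 : ℂ) * φ (3, 2) * hI + (-1 : ℂ) * (1/2 : ℂ) * Complex.I * φ (3, 3) * hI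
  have f02 : φ (0, 2) = 0 := by
    linear_combination ((-1/2 : ℂ) + (-1/2 : ℂ) * Complex.I) * e1 + ((-1/2 : ℂ) + (-1/2 : ℂ) * Complex.I) * e3 + ((-1/4 : ℂ) + (-1/4 : ℂ) * Complex.I) * e6 + ((-1/4 : ℂ) + (-1/4 : ℂ) * Complex.I) * e12 + (1/2 : ℂ) * Complex.I * e13 + (1/4 : ℂ) * e14 + (1/4 : ℂ) * e15 + (-1 : ℂ) * (-1/2 : ℂ) * φ (0, 2) * hI + (-1 : ℂ) * (1/4 : ℂ) * φ (1, 1) * hI + (-1 : ℂ) * (1/4 : ℂ) * φ (1, 3) * hI + (-1 : ℂ) * (1/2 : ℂ) * φ (2, 0) * hI + (-1 : ℂ) * (-1/2 : ℂ) * Complex.I * φ (2, 2) * hI + (-1 : ℂ) * (1/4 : ℂ) * φ (3, 1) * hI + (-1 : ℂ) * (1/4 : ℂ) * φ (3, 3) * hI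
  have f03 : φ (0, 3) = 0 := by
    linear_combination (-1 : ℂ) * e0 + ((-1/2 : ℂ) + (-1/2 : ℂ) * Complex.I) * e1 + ((-1/2 : ℂ) + (-1/2 : ℂ) * Complex.I) * e2 + (-1 : ℂ) * e3 + (-1/2 : ℂ) * e6 + (1/2 : ℂ) * e7 + (1/2 : ℂ) * e9 + (1/2 : ℂ) * Complex.I * e10 + (1 : ℂ) * e11 + (-1 : ℂ) * (-1/2 : ℂ) * φ (1, 2) * hI + (-1 : ℂ) * (1/2 : ℂ) * φ (2, 1) * hI + (-1 : ℂ) * (-1/2 : ℂ) * Complex.I * φ (2, 2) * hI
  have f10 : φ (1, 0) = 0 := by
    linear_combination ((-1/2 : ℂ) + (1/2 : ℂ) * Complex.I) * e0 + ((1/2 : ℂ) + (-1/2 : ℂ) * Complex.I) * e1 + (-1/2 : ℂ) * e4 + (1/2 : ℂ) * Complex.I * e5 + (1/2 : ℂ) * e6 + (1/2 : ℂ) * e7 + (-1 : ℂ) * (1/2 : ℂ) * φ (2, 3) * hI + (-1 : ℂ) * (1/2 : ℂ) * φ (3, 2) * hI + (-1 : ℂ) * (1/2 : ℂ) * Complex.I * φ (3, 3) * hI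
  have f11 : φ (1, 1) = 0 := by
    linear_combination (1 : ℂ) * e2
  have f12 : φ (1, 2) = 0 := by
    linear_combination ((-1/2 : ℂ) + (-1/2 : ℂ) * Complex.I) * e1 + ((-1/2 : ℂ) + (-1/2 : ℂ) * Complex.I) * e2 + (1/2 : ℂ) * e9 + (1/2 : ℂ) * Complex.I * e10 + (-1 : ℂ) * (-1/2 : ℂ) * φ (1, 2) * hI + (-1 : ℂ) * (1/2 : ℂ) * φ (2, 1) * hI + (-1 : ℂ) * (-1/2 : ℂ) * Complex.I * φ (2, 2) * hI
  have f13 : φ (1, 3) = 0 := by
    linear_combination ((-1/2 : ℂ) + (-1/2 : ℂ) * Complex.I) * e0 + ((-1/2 : ℂ) + (-1/2 : ℂ) * Complex.I) * e2 + ((-1/4 : ℂ) + (1/4 : ℂ) * Complex.I) * e6 + (1/2 : ℂ) * Complex.I * e8 + ((-1/4 : ℂ) + (1/4 : ℂ) * Complex.I) * e12 + (1/4 : ℂ) * e14 + (-1/4 : ℂ) * e15 + (-1 : ℂ) * (-1/4 : ℂ) * φ (1, 1) * hI + (-1 : ℂ) * (-3/4 : ℂ) * φ (1, 3) * hI + (-1 : ℂ) * (1/4 : ℂ) * φ (3, 1) * hI + (-1 : ℂ) * ((-1/4 : ℂ) + (-1/2 : ℂ) * Complex.I) * φ (3, 3) * hI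
  have f20 : φ (2, 0) = 0 := by
    linear_combination ((-1/2 : ℂ) + (1/2 : ℂ) * Complex.I) * e1 + ((-1/2 : ℂ) + (1/2 : ℂ) * Complex.I) * e3 + ((-1/4 : ℂ) + (-1/4 : ℂ) * Complex.I) * e6 + ((-1/4 : ℂ) + (-1/4 : ℂ) * Complex.I) * e12 + (-1/2 : ℂ) * Complex.I * e13 + (1/4 : ℂ) * e14 + (1/4 : ℂ) * e15 + (-1 : ℂ) * (1/2 : ℂ) * φ (0, 2) * hI + (-1 : ℂ) * (1/4 : ℂ) * φ (1, 1) * hI + (-1 : ℂ) * (1/4 : ℂ) * φ (1, 3) * hI + (-1 : ℂ) * (-1/2 : ℂ) * φ (2, 0) * hI + (-1 : ℂ) * (1/2 : ℂ) * Complex.I * φ (2, 2) * hI + (-1 : ℂ) * (1/4 : ℂ) * φ (3, 1) * hI + (-1 : ℂ) * (1/4 : ℂ) * φ (3, 3) * hI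
  have f21 : φ (2, 1) = 0 := by
    linear_combination ((-1/2 : ℂ) + (1/2 : ℂ) * Complex.I) * e1 + ((-1/2 : ℂ) + (1/2 : ℂ) * Complex.I) * e2 + (1/2 : ℂ) * e9 + (-1/2 : ℂ) * Complex.I * e10 + (-1 : ℂ) * (1/2 : ℂ) * φ (1, 2) * hI + (-1 : ℂ) * (-1/2 : ℂ) * φ (2, 1) * hI + (-1 : ℂ) * (1/2 : ℂ) * Complex.I * φ (2, 2) * hI
  have f22 : φ (2, 2) = 0 := by
    linear_combination (1 : ℂ) * e1
  have f23 : φ (2, 3) = 0 := by
    linear_combination ((-1/2 : ℂ) + (-1/2 : ℂ) * Complex.I) * e0 + ((1/2 : ℂ) + (1/2 : ℂ) * Complex.I) * e1 + (-1/2 : ℂ) * e4 + (-1/2 : ℂ) * Complex.I * e5 + (-1 : ℂ) * (-1/2 : ℂ) * φ (2, 3) * hI + (-1 : ℂ) * (-1/2 : ℂ) * φ (3, 2) * hI + (-1 : ℂ) * (-1/2 : ℂ) * Complex.I * φ (3, 3) * hI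
  have f30 : φ (3, 0) = 0 := by
    linear_combination ((1/2 : ℂ) + (1/2 : ℂ) * Complex.I) * e1 + ((1/2 : ℂ) + (1/2 : ℂ) * Complex.I) * e2 + (1/2 : ℂ) * e6 + (-1/2 : ℂ) * e7 + (-1/2 : ℂ) * e9 + (-1/2 : ℂ) * Complex.I * e10 + (-1 : ℂ) * (1/2 : ℂ) * φ (1, 2) * hI + (-1 : ℂ) * (-1/2 : ℂ) * φ (2, 1) * hI + (-1 : ℂ) * (1/2 : ℂ) * Complex.I * φ (2, 2) * hI
  have f31 : φ (3, 1) = 0 := by
    linear_combination ((-1/2 : ℂ) + (1/2 : ℂ) * Complex.I) * e0 + ((-1/2 : ℂ) + (1/2 : ℂ) * Complex.I) * e2 + ((-1/4 : ℂ) + (1/4 : ℂ) * Complex.I) * e6 + (-1/2 : ℂ) * Complex.I * e8 + ((-1/4 : ℂ) + (1/4 : ℂ) * Complex.I) * e12 + (1/4 : ℂ) * e14 + (-1/4 : ℂ) * e15 + (-1 : ℂ) * (-1/4 : ℂ) * φ (1, 1) * hI + (-1 : ℂ) * (1/4 : ℂ) * φ (1, 3) * hI + (-1 : ℂ) * (-3/4 : ℂ) * φ (3, 1) * hI + (-1 : ℂ) * ((-1/4 : ℂ) + (1/2 : ℂ) * Complex.I) * φ (3, 3) * hI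
  have f32 : φ (3, 2) = 0 := by
    linear_combination ((1/2 : ℂ) + (-1/2 : ℂ) * Complex.I) * e0 + ((-1/2 : ℂ) + (1/2 : ℂ) * Complex.I) * e1 + (1/2 : ℂ) * e4 + (-1/2 : ℂ) * Complex.I * e5 + (-1 : ℂ) * (-1/2 : ℂ) * φ (2, 3) * hI + (-1 : ℂ) * (-1/2 : ℂ) * φ (3, 2) * hI + (-1 : ℂ) * (-1/2 : ℂ) * Complex.I * φ (3, 3) * hI
  have f33 : φ (3, 3) = 0 := by
    linear_combination (1 : ℂ) * e0
  funext q
  obtain ⟨a, b⟩ := q
  fin_cases a <;> fin_cases b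
  · exact f00
  · exact f01
  · exact f02
  · exact f03
  · exact f10
  · exact f11
  · exact f12
  · exact f13
  · exact f20
  · exact f21
  · exact f22
  · exact f23
  · exact f30
  · exact f31
  · exact f32
  · exact f33


/-- Four basis vectors of `ℂ^4 ⊗ ℂ^4`. -/
def f4 : Fin 4 → Fin 4 × Fin 4 := ![(0, 3), (1, 2), (2, 1), (3, 0)]

set_option linter.unusedSimpArgs false in
lemma pt_block (τ : ℝ) : (partialTranspose (dfourW τ)).submatrix f4 f4 =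
    !![2, 0, 2 * (τ : ℂ), 2 * (τ : ℂ); 0, 2, 2 * (τ : ℂ), 2 * (τ : ℂ);
      2 * (τ : ℂ), 2 * (τ : ℂ), 2, 0; 2 * (τ : ℂ), 2 * (τ : ℂ), 0, 2] := by
  have hI : Complex.I * Complex.I = -1 := Complex.I_mul_I
  ext i j
  fin_cases i <;> fin_cases j <;>
    (simp [partialTranspose, dfourW, csW, f4, Matrix.sum_apply, Fin.sum_univ_succ, S4, c4,
      Matrix.one_apply] <;> ring)

lemma dfour_pt_not_posSemidef {τ : ℝ} (hτ : τ = 1 ∨ τ = -1) :
    ¬ (partialTranspose (dfourW τ)).PosSemidef := by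
  intro hP
  have h := (hP.submatrix f4).dotProduct_mulVec_nonneg ![1, 1, -(τ : ℂ), -(τ : ℂ)]
  rw [pt_block] at h
  have h1 := (Complex.le_def.mp h).1
  rcases hτ with rfl | rfl <;>
    simp [dotProduct, mulVec, Fin.sum_univ_four] at h1 <;> norm_num at h1

lemma dfour_ne_zero {τ : ℝ} (hτ : τ = 1 ∨ τ = -1) : dfourW τ ≠ 0 := by
  intro h
  apply dfour_pt_not_posSemidef hτ
  rw [h]
  exact PosSemidef.zero

lemma dfour_span {τ : ℝ} (hτ : τ = 1 ∨ τ = -1) : ZerosSpan (dfourW τ) := by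
  rcases hτ with rfl | rfl
  · exact dfour_spanP
  · exact dfour_spanN

lemma dfour_optimal {τ : ℝ} (hτ : τ = 1 ∨ τ = -1) : IsOptimalEW (dfourW τ) :=
  optimal_of (csW_hermitian S4_hermitian) (dfour_nonneg hτ) (dfour_span hτ) (dfour_ne_zero hτ)

lemma dfour_nondecomposable {τ : ℝ} (hτ : τ = 1 ∨ τ = -1) : ¬ IsDecomposable (dfourW τ) :=
  not_decomposable_of (dfour_span hτ) (dfour_pt_not_posSemidef hτ)

lemma dfour_mirror : dfourW 1 + dfourW (-1) = ((4 : ℝ) : ℂ) • (1 : Op 4) := by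
  rw [dfourW, dfourW, csW, csW]
  simp only [one_mul, neg_mul, Complex.ofReal_neg, neg_smul, Finset.sum_neg_distrib]
  have : ((4 : ℝ) : ℂ) = ((2 : ℝ) : ℂ) + ((2 : ℝ) : ℂ) := by norm_num
  rw [this, add_smul]
  abel

/-- **Mirrored pairs of optimal entanglement witnesses exist in every dimension `d ≥ 4`.**
For every `d ≥ 4` there are two optimal entanglement witnesses `W`, `M` on `ℂ^d ⊗ ℂ^d` with
`W + M = u · 1` for a real number `u`; both can be taken non-decomposable. -/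
theorem result (d : ℕ) (hd : 4 ≤ d) :
    ∃ W M : Op d, IsOptimalEW W ∧ IsOptimalEW M ∧
      (∃ u : ℝ, W + M = (u : ℂ) • (1 : Op d)) ∧ ¬ IsDecomposable W ∧ ¬ IsDecomposable M := by
  rcases Nat.lt_or_ge 4 d with h | h
  · exact ⟨soW (pat d 1), soW (pat d (-1)), soW_optimal h (Or.inl rfl),
      soW_optimal h (Or.inr rfl), ⟨4, soW_mirror⟩, soW_nondecomposable h (Or.inl rfl),
      soW_nondecomposable h (Or.inr rfl)⟩
  · obtain rfl : d = 4 := le_antisymm h hd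
    exact ⟨dfourW 1, dfourW (-1), dfour_optimal (Or.inl rfl), dfour_optimal (Or.inr rfl),
      ⟨4, dfour_mirror⟩, dfour_nondecomposable (Or.inl rfl), dfour_nondecomposable (Or.inr rfl)⟩

end Pool.Agent.Results.MP_709dca_mp.AllDimensions
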